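import Mathlib

set_option autoImplicit false

/-!
# MP_96a252_nt: growth of the trajectories of the Collatz permutation

`w_k(x)` = product of the factors `2/3`, `4/3` of the first `k` steps, `F k x = w_k(x)^(-1/2)`.
`F k` has period `3 ^ k` and its sum over a period is `(sqrt 3 + sqrt (3/2)) ^ k`; hence at most
`16 Y ((sqrt 3 + sqrt (3/2)) / 3) ^ k` of the integers up to `Y` are again at most `Y` after `k`
steps, for `3 ^ k <= Y` (lemma `count`). A set of indices below `K` without differences in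
`(k0, k1]` has at most `(k0 + 1) (K / (k0 + k1 + 1) + 1)` elements (lemma `windows`).
-/

namespace Pool.Agent.H12.TG

open Finset

/-- The map `T` of the problem file. -/
def T (x : ℤ) : ℤ :=
  if x % 3 = 0 then 2 * x / 3 else if x % 3 = 1 then (4 * x - 1) / 3 else (4 * x + 1) / 3

/-- The exponent `log_3 (sqrt 3 + sqrt (3/2)) = 0.98679...`. -/
noncomputable def γ : ℝ := Real.logb 3 (√3 + √(3 / 2))

/-- `T` on the natural numbers. -/
def t (x : ℕ) : ℕ :=
  if x % 3 = 0 then 2 * (x / 3) else if x % 3 = 1 then 4 * (x / 3) + 1 else 4 * (x / 3) + 3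

/-- The weight of the first `k` steps. -/
noncomputable def F : ℕ → ℕ → ℝ
  | 0, _ => 1
  | k + 1, x => (if x % 3 = 0 then √(3 / 2) else √(3 / 4)) * F k (t x)

lemma F_pos (k : ℕ) : ∀ x, 0 < F k x := by
  induction k with
  | zero => intro x; simp [F]
  | succ k ih =>
    intro x
    have h := ih (t x)
    rw [F]
    split_ifs
    · positivity
    · positivity

lemma F_lower (k : ℕ) : ∀ x : ℕ, (x : ℝ) - ((3 / 2) ^ k - 1) ≤ F k x ^ 2 * (t^[k] x : ℕ) := by
  induction k with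
  | zero => intro x; simp [F]
  | succ k ih =>
    intro x
    have h := ih (t x)
    have h1 : (1 : ℝ) ≤ (3 / 2) ^ k := one_le_pow₀ (by norm_num)
    rw [F, Function.iterate_succ_apply, mul_pow, mul_assoc]
    have hs1 : √(3 / 2 : ℝ) ^ 2 = 3 / 2 := Real.sq_sqrt (by norm_num)
    have hs2 : √(3 / 4 : ℝ) ^ 2 = 3 / 4 := Real.sq_sqrt (by norm_num)
    rw [pow_succ]
    have hx : x = 3 * (x / 3) + x % 3 := by omega
    by_cases h0 : x % 3 = 0
    · have ht : t x = 2 * (x / 3) := by simp [t, h0]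
      rw [if_pos h0, hs1]
      rw [ht] at h ⊢
      have hx' : (x : ℝ) = 3 * ((x / 3 : ℕ) : ℝ) := by
        rw [h0] at hx
        exact_mod_cast (by omega : x = 3 * (x / 3))
      push_cast at h
      rw [hx']
      linarith
    · rw [if_neg h0, hs2]
      by_cases h2 : x % 3 = 1
      · have ht : t x = 4 * (x / 3) + 1 := by simp [t, h2]
        rw [ht] at h ⊢
        have hx' : (x : ℝ) = 3 * ((x / 3 : ℕ) : ℝ) + 1 := by
          exact_mod_cast (by omega : x = 3 * (x / 3) + 1)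
        push_cast at h
        rw [hx']
        linarith
      · have ht : t x = 4 * (x / 3) + 3 := by simp [t, h0, h2]
        rw [ht] at h ⊢
        have hx' : (x : ℝ) = 3 * ((x / 3 : ℕ) : ℝ) + 2 := by
          exact_mod_cast (by omega : x = 3 * (x / 3) + 2)
        push_cast at h
        rw [hx']
        linarith

lemma half_pow (k : ℕ) : ((3 / 2 : ℝ)) ^ k - 1 ≤ 3 ^ k / 2 := by
  induction k with
  | zero => norm_num
  | succ k ih =>
    have h1 : (1 : ℝ) ≤ 3 ^ k := one_le_pow₀ (by norm_num)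
    rw [pow_succ, pow_succ]
    linarith

lemma t_shift (k x z : ℕ) : ∃ w, t (x + 3 ^ (k + 1) * z) = t x + 3 ^ k * w := by
  have h1 : (x + 3 ^ (k + 1) * z) % 3 = x % 3 := by
    rw [pow_succ, mul_comm (3 ^ k) 3, mul_assoc, Nat.add_mul_mod_self_left]
  have h2 : (x + 3 ^ (k + 1) * z) / 3 = x / 3 + 3 ^ k * z := by
    rw [pow_succ, mul_comm (3 ^ k) 3, mul_assoc, Nat.add_mul_div_left _ _ (by norm_num)]
  unfold t
  rw [h1, h2]
  split_ifs
  · exact ⟨2 * z, by ring⟩
  · exact ⟨4 * z, by ring⟩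
  · exact ⟨4 * z, by ring⟩

lemma F_shift (k : ℕ) : ∀ x z : ℕ, F k (x + 3 ^ k * z) = F k x := by
  induction k with
  | zero => intro x z; simp [F]
  | succ k ih =>
    intro x z
    obtain ⟨w, hw⟩ := t_shift k x z
    have h1 : (x + 3 ^ (k + 1) * z) % 3 = x % 3 := by
      rw [pow_succ, mul_comm (3 ^ k) 3, mul_assoc, Nat.add_mul_mod_self_left]
    rw [F, F, hw, ih, h1]

lemma F_periodic (k : ℕ) : Function.Periodic (F k) (3 ^ k) := by
  intro x
  have := F_shift k x 1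
  rwa [mul_one] at this

/-- Sums over a complete residue system. -/
lemma sum_affine {n : ℕ} (hn : 0 < n) {f : ℕ → ℝ} (hf : Function.Periodic f n) {c b : ℕ}
    (hc : Nat.Coprime c n) : ∑ q ∈ range n, f (c * q + b) = ∑ q ∈ range n, f q := by
  have hinj : Set.InjOn (fun q => (c * q + b) % n) (range n : Finset ℕ) := by
    intro i hi j hj hij
    simp only [coe_range, Set.mem_Iio] at hi hj
    have h1 : c * i + b ≡ c * j + b [MOD n] := hij
    have h2 : c * i ≡ c * j [MOD n] := Nat.ModEq.add_right_cancel' b h1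
    have h3 : i ≡ j [MOD n] := Nat.ModEq.cancel_left_of_coprime (Nat.Coprime.symm hc) h2
    exact Nat.ModEq.eq_of_lt_of_lt h3 hi hj
  have hmaps : ∀ q ∈ range n, (c * q + b) % n ∈ range n := fun q _ =>
    mem_range.2 (Nat.mod_lt _ hn)
  have himg : (range n).image (fun q => (c * q + b) % n) = range n := by
    apply eq_of_subset_of_card_le
    · intro y hy
      obtain ⟨q, hq, rfl⟩ := mem_image.1 hy
      exact hmaps q hq
    · rw [card_image_of_injOn hinj]
  conv_rhs => rw [← himg]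
  rw [sum_image hinj]
  refine sum_congr rfl (fun q _ => ?_)
  exact (hf.map_mod_nat _).symm

lemma sum_three (f : ℕ → ℝ) (n : ℕ) :
    ∑ x ∈ range (3 * n), f x = ∑ q ∈ range n, (f (3 * q) + f (3 * q + 1) + f (3 * q + 2)) := by
  induction n with
  | zero => simp
  | succ n ih =>
    rw [sum_range_succ, ← ih, show 3 * (n + 1) = 3 * n + 1 + 1 + 1 by ring, sum_range_succ,
      sum_range_succ, sum_range_succ]
    ring

lemma F_sum (k : ℕ) : ∑ x ∈ range (3 ^ k), F k x = (√3 + √(3 / 2)) ^ k := by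
  induction k with
  | zero => simp [F]
  | succ k ih =>
    have hn : 0 < 3 ^ k := by positivity
    rw [pow_succ, mul_comm (3 ^ k) 3, sum_three]
    have h0 : ∀ q, F (k + 1) (3 * q) = √(3 / 2) * F k (2 * q + 0) := by
      intro q
      rw [F, if_pos (by omega)]
      have : t (3 * q) = 2 * q + 0 := by
        unfold t; rw [if_pos (by omega)]; omega
      rw [this]
    have h1 : ∀ q, F (k + 1) (3 * q + 1) = √(3 / 4) * F k (4 * q + 1) := by
      intro q
      rw [F, if_neg (by omega)]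
      have : t (3 * q + 1) = 4 * q + 1 := by
        unfold t; rw [if_neg (by omega), if_pos (by omega)]; omega
      rw [this]
    have h2 : ∀ q, F (k + 1) (3 * q + 2) = √(3 / 4) * F k (4 * q + 3) := by
      intro q
      rw [F, if_neg (by omega)]
      have : t (3 * q + 2) = 4 * q + 3 := by
        unfold t; rw [if_neg (by omega), if_neg (by omega)]; omega
      rw [this]
    simp only [h0, h1, h2]
    rw [sum_add_distrib, sum_add_distrib, ← mul_sum, ← mul_sum, ← mul_sum]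
    have hc2 : Nat.Coprime 2 (3 ^ k) := Nat.Coprime.pow_right k (by norm_num)
    have hc4 : Nat.Coprime 4 (3 ^ k) := Nat.Coprime.pow_right k (by norm_num)
    rw [sum_affine hn (F_periodic k) hc2, sum_affine hn (F_periodic k) hc4,
      sum_affine hn (F_periodic k) hc4, ih, pow_succ]
    have h34 : √(3 / 4 : ℝ) = √3 / 2 := by
      rw [Real.sqrt_div (by norm_num), show (4 : ℝ) = 2 ^ 2 by norm_num, Real.sqrt_sq (by norm_num)]
    rw [h34]
    ring

lemma t_ge (x : ℕ) : (2 / 3 : ℝ) * x ≤ (t x : ℕ) := by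
  have h : 2 * x ≤ 3 * t x := by
    unfold t
    split_ifs <;> omega
  have h' : (2 : ℝ) * x ≤ 3 * (t x : ℕ) := by exact_mod_cast h
  linarith

lemma iter_ge (j : ℕ) : ∀ x : ℕ, (x : ℝ) ≤ (3 / 2 : ℝ) ^ j * (t^[j] x : ℕ) := by
  induction j with
  | zero => intro x; simp
  | succ j ih =>
    intro x
    have h1 := ih (t x)
    have h2 := t_ge x
    rw [Function.iterate_succ_apply, pow_succ]
    have h3 : (x : ℝ) ≤ 3 / 2 * (t x : ℕ) := by linarith
    calc (x : ℝ) ≤ 3 / 2 * (t x : ℕ) := h3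
      _ ≤ 3 / 2 * ((3 / 2 : ℝ) ^ j * (t^[j] (t x) : ℕ)) := by gcongr
      _ = _ := by ring

lemma sqrt_three_halves : √(3 / 2 : ℝ) = √3 * (√2 / 2) := by
  rw [show (3 / 2 : ℝ) = 3 * (1 / 2) by norm_num, Real.sqrt_mul (by norm_num)]
  congr 1
  rw [Real.sqrt_div (by norm_num), Real.sqrt_one]
  have : √2 * √2 = (2 : ℝ) := Real.mul_self_sqrt (by norm_num)
  have h0 : (0 : ℝ) < √2 := by positivity
  field_simp
  linarith


lemma F_sum_mul (m a b : ℕ) :
    ∑ x ∈ Ico (3 ^ m * a) (3 ^ m * (a + b)), F m x = b * (√3 + √(3 / 2)) ^ m := by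
  induction b with
  | zero => simp
  | succ b ih =>
    have h : ∑ x ∈ Ico (3 ^ m * (a + b)) (3 ^ m * (a + (b + 1))), F m x =
        (√3 + √(3 / 2)) ^ m := by
      rw [sum_Ico_eq_sum_range]
      have : 3 ^ m * (a + (b + 1)) - 3 ^ m * (a + b) = 3 ^ m := by
        rw [show a + (b + 1) = (a + b) + 1 by ring, mul_add (3 ^ m) (a + b) 1, mul_one,
          Nat.add_sub_cancel_left]
      rw [this, ← F_sum m]
      refine sum_congr rfl (fun x _ => ?_)
      rw [add_comm, F_shift]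
    rw [← sum_Ico_consecutive _ (Nat.mul_le_mul_left (3 ^ m) (show a ≤ a + b by omega))
      (Nat.mul_le_mul_left (3 ^ m) (show a + b ≤ a + (b + 1) by omega)), ih, h]
    push_cast
    ring

lemma F_sum_block {m j : ℕ} (h : m ≤ j) :
    ∑ x ∈ Ico (3 ^ j) (3 ^ (j + 1)), F m x = 2 * 3 ^ (j - m) * (√3 + √(3 / 2)) ^ m := by
  have h1 := F_sum_mul m (3 ^ (j - m)) (2 * 3 ^ (j - m))
  have e1 : 3 ^ m * 3 ^ (j - m) = 3 ^ j := by rw [← pow_add]; congr 1; omega
  have e2 : 3 ^ m * (3 ^ (j - m) + 2 * 3 ^ (j - m)) = 3 ^ (j + 1) := by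
    rw [pow_succ, ← e1]; ring
  rw [e1, e2] at h1
  rw [h1]
  push_cast
  ring

lemma sqrt_pow_eq {a : ℝ} (ha : 0 ≤ a) (n : ℕ) : √(a ^ n) = √a ^ n := by
  induction n with
  | zero => simp
  | succ n ih => rw [pow_succ, Real.sqrt_mul (by positivity), ih, pow_succ]

lemma block_card {j k m Y : ℕ} (hj : m ≤ j) (hk : m ≤ k) :
    (((Ico (3 ^ j) (3 ^ (j + 1))).filter (fun x => t^[k] x ≤ Y)).card : ℝ) ≤
      2 * 3 ^ (j - m) * (√3 + √(3 / 2)) ^ m * (√2 * √(3 / 2) ^ (k - m) * √Y / √3 ^ j) := by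
  set C : ℝ := 2 * (3 / 2) ^ (k - m) * Y / 3 ^ j with hC
  have hC0 : 0 ≤ C := by positivity
  have hCs : √C = √2 * √(3 / 2) ^ (k - m) * √Y / √3 ^ j := by
    rw [hC, Real.sqrt_div (by positivity), Real.sqrt_mul (by positivity),
      Real.sqrt_mul (by norm_num), sqrt_pow_eq (by norm_num), sqrt_pow_eq (by norm_num)]
  rw [← hCs]
  set S := (Ico (3 ^ j) (3 ^ (j + 1))).filter (fun x => t^[k] x ≤ Y) with hS
  have h3 : (S.card : ℝ) ≤ ∑ x ∈ S, F m x * √C := by
    rw [card_eq_sum_ones, Nat.cast_sum]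
    refine sum_le_sum (fun x hx => ?_)
    rw [hS, mem_filter, mem_Ico] at hx
    have h1 := F_lower m x
    have h2 := half_pow m
    have hx3 : (3 : ℝ) ^ j ≤ x := by exact_mod_cast hx.1.1
    have hxm : (3 : ℝ) ^ m ≤ x := (pow_le_pow_right₀ (by norm_num) hj).trans hx3
    have h5 := F_pos m x
    have h6 : ((t^[m] x : ℕ) : ℝ) ≤ (3 / 2 : ℝ) ^ (k - m) * ((t^[k] x : ℕ) : ℝ) := by
      have := iter_ge (k - m) (t^[m] x)
      rwa [← Function.iterate_add_apply, Nat.sub_add_cancel hk] at this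
    have hY : ((t^[k] x : ℕ) : ℝ) ≤ Y := by exact_mod_cast hx.2
    have h7 : (3 : ℝ) ^ j / 2 ≤ F m x ^ 2 * ((3 / 2 : ℝ) ^ (k - m) * Y) := by
      calc (3 : ℝ) ^ j / 2 ≤ (x : ℝ) / 2 := by linarith
        _ ≤ F m x ^ 2 * (t^[m] x : ℕ) := by linarith
        _ ≤ F m x ^ 2 * ((3 / 2 : ℝ) ^ (k - m) * ((t^[k] x : ℕ) : ℝ)) := by gcongr
        _ ≤ _ := by gcongr
    have h8 : 1 ≤ (F m x * √C) ^ 2 := by
      rw [mul_pow, Real.sq_sqrt hC0, hC, mul_div_assoc', le_div_iff₀ (by positivity)]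
      linarith
    have h9 := (one_le_sq_iff₀ (by positivity)).1 h8
    simpa using h9
  have h4 : ∑ x ∈ S, F m x * √C ≤ ∑ x ∈ Ico (3 ^ j) (3 ^ (j + 1)), F m x * √C :=
    sum_le_sum_of_subset_of_nonneg (filter_subset _ _)
      (fun x _ _ => by have := F_pos m x; positivity)
  refine (h3.trans h4).trans (le_of_eq ?_)
  rw [← sum_mul, F_sum_block hj]

lemma geomA (k : ℕ) : ∑ j ∈ range k, √(3 / 2) ^ (k - j) * (1 + √2 / 2) ^ j ≤
    3 * (1 + √2 / 2) ^ k := by
  have hs0 : (0 : ℝ) < √2 := by positivity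
  have hp : √(3 / 2) * 4 ≤ 3 * (1 + √2 / 2) := by
    have h1 : √(3 / 2) ≤ (1.225 : ℝ) := Real.sqrt_le_iff.2 ⟨by norm_num, by norm_num⟩
    have h2 : (1.414 : ℝ) ≤ √2 := Real.le_sqrt_of_sq_le (by norm_num)
    linarith
  induction k with
  | zero => simp
  | succ k ih =>
    rw [sum_range_succ]
    have h1 : ∑ j ∈ range k, √(3 / 2) ^ (k + 1 - j) * (1 + √2 / 2) ^ j =
        √(3 / 2) * ∑ j ∈ range k, √(3 / 2) ^ (k - j) * (1 + √2 / 2) ^ j := by
      rw [mul_sum]
      refine sum_congr rfl (fun j hj => ?_)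
      have : k + 1 - j = (k - j) + 1 := by have := mem_range.1 hj; omega
      rw [this, pow_succ]
      ring
    rw [h1, show k + 1 - k = 1 by omega, pow_one]
    calc √(3 / 2) * ∑ j ∈ range k, √(3 / 2) ^ (k - j) * (1 + √2 / 2) ^ j +
          √(3 / 2) * (1 + √2 / 2) ^ k ≤
          √(3 / 2) * (3 * (1 + √2 / 2) ^ k) + √(3 / 2) * (1 + √2 / 2) ^ k := by gcongr
      _ = (√(3 / 2) * 4) * (1 + √2 / 2) ^ k := by ring
      _ ≤ (3 * (1 + √2 / 2)) * (1 + √2 / 2) ^ k := by gcongr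
      _ = 3 * (1 + √2 / 2) ^ (k + 1) := by rw [pow_succ]; ring

lemma geomB (l : ℕ) : ∑ j ∈ range (l + 1), √3 ^ j ≤ 5 / 2 * √3 ^ l := by
  induction l with
  | zero => norm_num
  | succ l ih =>
    rw [sum_range_succ]
    have h1 : (5 / 3 : ℝ) ≤ √3 := Real.le_sqrt_of_sq_le (by norm_num)
    have h2 : (0 : ℝ) < √3 ^ l := by positivity
    rw [pow_succ]
    nlinarith

lemma rho_eq : √3 + √(3 / 2 : ℝ) = √3 * (1 + √2 / 2) := by
  rw [sqrt_three_halves]; ring

/-- Few integers up to `Y` are again at most `Y` after `k` steps. -/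
lemma count {k Y : ℕ} (hY : 3 ^ k ≤ Y) :
    (((Ico 1 (Y + 1)).filter (fun x => t^[k] x ≤ Y)).card : ℝ) ≤
      16 * Y * ((√3 + √(3 / 2)) / 3) ^ k := by
  have hY1 : 1 ≤ Y := le_trans (Nat.one_le_pow _ _ (by norm_num)) hY
  set l := Nat.log 3 Y with hl
  have hkl : k ≤ l := Nat.le_log_of_pow_le (by norm_num) hY
  have h3l : 3 ^ l ≤ Y := Nat.pow_log_le_self 3 (by omega)
  have hcov : (Ico 1 (Y + 1)).filter (fun x => t^[k] x ≤ Y) ⊆ (range (l + 1)).biUnion
      (fun j => (Ico (3 ^ j) (3 ^ (j + 1))).filter (fun x => t^[k] x ≤ Y)) := by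
    intro x hx
    rw [mem_filter, mem_Ico] at hx
    rw [mem_biUnion]
    refine ⟨Nat.log 3 x, ?_, ?_⟩
    · rw [mem_range, Nat.lt_succ_iff]
      exact Nat.log_mono_right (by omega)
    · rw [mem_filter, mem_Ico]
      exact ⟨⟨Nat.pow_log_le_self 3 (by omega), Nat.lt_pow_succ_log_self (by norm_num) x⟩, hx.2⟩
  have h1 : ((((Ico 1 (Y + 1)).filter (fun x => t^[k] x ≤ Y)).card : ℕ) : ℝ) ≤
      ∑ j ∈ range (l + 1),
        (((Ico (3 ^ j) (3 ^ (j + 1))).filter (fun x => t^[k] x ≤ Y)).card : ℝ) := by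
    exact_mod_cast (card_le_card hcov).trans card_biUnion_le
  rw [← sum_range_add_sum_Ico _ (show k ≤ l + 1 by omega)] at h1
  have hs2 : (0 : ℝ) < √2 := by positivity
  have hs3 : (0 : ℝ) < √3 := by positivity
  have hsY : √(Y : ℝ) * √Y = Y := Real.mul_self_sqrt (Nat.cast_nonneg _)
  have hsY0 : 0 ≤ √(Y : ℝ) := Real.sqrt_nonneg _
  have hs33 : √3 * √3 = (3 : ℝ) := Real.mul_self_sqrt (by norm_num)
  have hpow : ∀ j, 3 ^ j ≤ Y → √3 ^ j ≤ √(Y : ℝ) := by
    intro j hj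
    rw [← sqrt_pow_eq (by norm_num)]
    exact Real.sqrt_le_sqrt (by exact_mod_cast hj)
  -- first part
  have hA : ∑ j ∈ range k,
      (((Ico (3 ^ j) (3 ^ (j + 1))).filter (fun x => t^[k] x ≤ Y)).card : ℝ) ≤
      6 * √2 * Y * ((√3 + √(3 / 2)) / 3) ^ k := by
    calc _ ≤ ∑ j ∈ range k, 2 * √2 * √Y * (√(3 / 2) ^ (k - j) * (1 + √2 / 2) ^ j) := by
          refine sum_le_sum (fun j hj => ?_)
          refine (block_card (le_refl j) (mem_range.1 hj).le).trans (le_of_eq ?_)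
          rw [Nat.sub_self, pow_zero, rho_eq, mul_pow]
          field_simp
      _ = 2 * √2 * √Y * ∑ j ∈ range k, (√(3 / 2) ^ (k - j) * (1 + √2 / 2) ^ j) := by
          rw [mul_sum]
      _ ≤ 2 * √2 * √Y * (3 * (1 + √2 / 2) ^ k) := by
          gcongr
          exact geomA k
      _ = 6 * √2 * √Y * (√3 ^ k * ((√3 + √(3 / 2)) / 3) ^ k) := by
          rw [← mul_pow, rho_eq]
          have : √3 * (√3 * (1 + √2 / 2) / 3) = 1 + √2 / 2 := by
            linear_combination ((1 + √2 / 2) / 3) * hs33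
          rw [this]
          ring
      _ ≤ 6 * √2 * √Y * (√Y * ((√3 + √(3 / 2)) / 3) ^ k) := by
          have := hpow k hY
          gcongr
      _ = 6 * √2 * Y * ((√3 + √(3 / 2)) / 3) ^ k := by
          linear_combination (6 * √2 * ((√3 + √(3 / 2)) / 3) ^ k) * hsY
  have hB : ∑ j ∈ Ico k (l + 1),
      (((Ico (3 ^ j) (3 ^ (j + 1))).filter (fun x => t^[k] x ≤ Y)).card : ℝ) ≤
      5 * √2 * Y * ((√3 + √(3 / 2)) / 3) ^ k := by
    calc _ ≤ ∑ j ∈ Ico k (l + 1), 2 * √2 * √Y * ((√3 + √(3 / 2)) / 3) ^ k * √3 ^ j := by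
          refine sum_le_sum (fun j hj => ?_)
          have hkj : k ≤ j := (mem_Ico.1 hj).1
          refine (block_card hkj (le_refl k)).trans (le_of_eq ?_)
          have e : (3 : ℝ) ^ (j - k) * 3 ^ k = √3 ^ j * √3 ^ j := by
            rw [← pow_add, Nat.sub_add_cancel hkj, ← mul_pow, hs33]
          rw [Nat.sub_self, pow_zero, div_pow]
          have h3k : (3 : ℝ) ^ k ≠ 0 := by positivity
          have h3j : √3 ^ j ≠ 0 := by positivity
          field_simp
          linear_combination e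
      _ = 2 * √2 * √Y * ((√3 + √(3 / 2)) / 3) ^ k * ∑ j ∈ Ico k (l + 1), √3 ^ j := by
          rw [mul_sum]
      _ ≤ 2 * √2 * √Y * ((√3 + √(3 / 2)) / 3) ^ k * ∑ j ∈ range (l + 1), √3 ^ j := by
          have h7 : ∑ j ∈ Ico k (l + 1), √3 ^ j ≤ ∑ j ∈ range (l + 1), √3 ^ j :=
            sum_le_sum_of_subset_of_nonneg
              (fun j hj => mem_range.2 (mem_Ico.1 hj).2) (fun j _ _ => by positivity)
          gcongr
      _ ≤ 2 * √2 * √Y * ((√3 + √(3 / 2)) / 3) ^ k * (5 / 2 * √Y) := by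
          have h5 := geomB l
          have h6 := hpow l h3l
          gcongr
          linarith
      _ = 5 * √2 * Y * ((√3 + √(3 / 2)) / 3) ^ k := by
          linear_combination (5 * √2 * ((√3 + √(3 / 2)) / 3) ^ k) * hsY
  have h11 : 11 * √2 ≤ (16 : ℝ) := by
    have h2 : √2 ≤ (1.415 : ℝ) := Real.sqrt_le_iff.2 ⟨by norm_num, by norm_num⟩
    linarith
  have hpos : 0 ≤ (Y : ℝ) * ((√3 + √(3 / 2)) / 3) ^ k := by positivity
  nlinarith

/-- A set of integers below `K` without differences in `(k0, k1]`. -/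
lemma windows {k0 k1 K : ℕ} (h01 : k0 < k1) (S : Finset ℕ) (hS : ∀ i ∈ S, i < K)
    (hd : ∀ i ∈ S, ∀ j ∈ S, i + k0 < j → i + k1 < j) :
    S.card ≤ (k0 + 1) * (K / (k0 + k1 + 1) + 1) := by
  have h := card_le_mul_card_image_of_maps_to (s := S) (t := range (K / (k0 + k1 + 1) + 1))
    (f := fun i => i / (k0 + k1 + 1))
    (fun i hi => mem_range.2 (Nat.lt_succ_of_le (Nat.div_le_div_right (hS i hi).le)))
    (k0 + 1) ?_
  · simpa using h
  intro b _
  set A := S.filter (fun i => i / (k0 + k1 + 1) = b) with hA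
  rcases A.eq_empty_or_nonempty with he | hne
  · simp [he]
  set s := A.min' hne with hs
  have hsA : s ∈ A := min'_mem A hne
  have hsS : s ∈ S := (mem_filter.1 hsA).1
  have hsb : s / (k0 + k1 + 1) = b := (mem_filter.1 hsA).2
  have hle : ∀ j ∈ A, s ≤ j := fun j hj => min'_le A j hj
  have hlt : ∀ j ∈ A, j < s + (k0 + k1 + 1) := by
    intro j hj
    have hjb : j / (k0 + k1 + 1) = b := (mem_filter.1 hj).2
    have e1 := Nat.div_add_mod j (k0 + k1 + 1)
    have e2 := Nat.div_add_mod s (k0 + k1 + 1)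
    have e3 := Nat.mod_lt j (show 0 < k0 + k1 + 1 by omega)
    rw [hjb] at e1
    rw [hsb] at e2
    omega
  have hfar : ∀ j ∈ A, s + k0 < j → s + k1 < j := fun j hj h =>
    hd s hsS j (mem_filter.1 hj).1 h
  calc A.card ≤ (Icc s (s + k0)).card := by
        refine card_le_card_of_injOn (fun j => if j ≤ s + k0 then j else j - k1) ?_ ?_
        · intro j hj
          have hj' : j ∈ A := hj
          have h1 := hle j hj'
          have h2 := hlt j hj'
          simp only [coe_Icc, Set.mem_Icc]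
          split_ifs with h
          · omega
          · have := hfar j hj' (by omega)
            omega
        · intro i hi j hj hij
          have hi' : i ∈ A := hi
          have hj' : j ∈ A := hj
          simp only at hij
          have i1 := hle i hi'
          have j1 := hle j hj'
          split_ifs at hij with h1 h2 h2
          · exact hij
          · exfalso
            have h3 := hfar j hj' (by omega)
            have h4 := hd i (mem_filter.1 hi').1 j (mem_filter.1 hj').1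
            omega
          · exfalso
            have h3 := hfar i hi' (by omega)
            have h4 := hd j (mem_filter.1 hj').1 i (mem_filter.1 hi').1
            omega
          · have h3 := hfar j hj' (by omega)
            have h4 := hfar i hi' (by omega)
            omega
    _ = k0 + 1 := by rw [Nat.card_Icc]; omega

lemma low_count {k0 k1 K Y : ℕ} (h01 : k0 < k1) (hY : 3 ^ k1 ≤ Y) (m : ℕ)
    (hpos : ∀ i, 1 ≤ t^[i] m) (hinj : ∀ i < K, ∀ j < K, t^[i] m = t^[j] m → i = j) :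
    (((range K).filter (fun i => t^[i] m ≤ Y)).card : ℝ) ≤
      (k0 + 1) * ((K : ℝ) / (k0 + k1 + 1) + 1) +
        k1 * (16 * Y * ((√3 + √(3 / 2)) / 3) ^ k0) := by
  set L := (range K).filter (fun i => t^[i] m ≤ Y) with hL
  set B := (Ioc k0 k1).biUnion (fun k => L.filter (fun i => t^[i + k] m ≤ Y)) with hB
  have hq1 : (√3 + √(3 / 2 : ℝ)) / 3 ≤ 1 := by
    have h2 : √3 < (1.7320509 : ℝ) := (Real.sqrt_lt' (by norm_num)).2 (by norm_num)
    have h3 : √(3 / 2) < (1.2247449 : ℝ) := (Real.sqrt_lt' (by norm_num)).2 (by norm_num)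
    linarith
  have hBc : (B.card : ℝ) ≤ k1 * (16 * Y * ((√3 + √(3 / 2)) / 3) ^ k0) := by
    have h1 : (B.card : ℝ) ≤ ∑ k ∈ Ioc k0 k1, ((L.filter (fun i => t^[i + k] m ≤ Y)).card : ℝ) := by
      exact_mod_cast card_biUnion_le
    refine h1.trans ?_
    calc _ ≤ ∑ k ∈ Ioc k0 k1, 16 * (Y : ℝ) * ((√3 + √(3 / 2)) / 3) ^ k0 := by
          refine sum_le_sum (fun k hk => ?_)
          rw [mem_Ioc] at hk
          have h3 : 3 ^ k ≤ Y := le_trans (Nat.pow_le_pow_right (by norm_num) hk.2) hY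
          have h4 : (L.filter (fun i => t^[i + k] m ≤ Y)).card ≤
              ((Ico 1 (Y + 1)).filter (fun x => t^[k] x ≤ Y)).card := by
            refine card_le_card_of_injOn (fun i => t^[i] m) ?_ ?_
            · intro i hi
              have hi' := mem_filter.1 (mem_coe.1 hi)
              have hi2 := mem_filter.1 hi'.1
              have hi3 : t^[i] m ≤ Y := hi2.2
              rw [mem_coe, mem_filter, mem_Ico]
              refine ⟨⟨hpos i, Nat.lt_succ_of_le hi3⟩, ?_⟩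
              rw [← Function.iterate_add_apply, add_comm k i]
              exact hi'.2
            · intro i hi j hj hij
              have hi2 := mem_filter.1 (mem_filter.1 (mem_coe.1 hi)).1
              have hj2 := mem_filter.1 (mem_filter.1 (mem_coe.1 hj)).1
              exact hinj i (mem_range.1 hi2.1) j (mem_range.1 hj2.1) hij
          have h5 : ((L.filter (fun i => t^[i + k] m ≤ Y)).card : ℝ) ≤
              (((Ico 1 (Y + 1)).filter (fun x => t^[k] x ≤ Y)).card : ℝ) := by exact_mod_cast h4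
          refine h5.trans ((count h3).trans ?_)
          have h6 : ((√3 + √(3 / 2)) / 3) ^ k ≤ ((√3 + √(3 / 2 : ℝ)) / 3) ^ k0 :=
            pow_le_pow_of_le_one (by positivity) hq1 hk.1.le
          gcongr
      _ = ((k1 - k0 : ℕ) : ℝ) * (16 * Y * ((√3 + √(3 / 2)) / 3) ^ k0) := by
          rw [sum_const, Nat.card_Ioc, nsmul_eq_mul]
      _ ≤ k1 * (16 * Y * ((√3 + √(3 / 2)) / 3) ^ k0) := by
          gcongr
          omega
  have hW := windows h01 (L \ B) (fun i hi => mem_range.1 (mem_filter.1 (mem_sdiff.1 hi).1).1)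
    (K := K) (by
      intro i hi j hj hij
      by_contra hcon
      rw [mem_sdiff] at hi hj
      apply hi.2
      rw [hB, mem_biUnion]
      refine ⟨j - i, ?_, ?_⟩
      · rw [mem_Ioc]; omega
      · rw [mem_filter]
        refine ⟨hi.1, ?_⟩
        rw [show i + (j - i) = j by omega]
        exact (mem_filter.1 hj.1).2)
  have hLc : L.card ≤ (L \ B).card + B.card := by
    calc L.card ≤ ((L \ B) ∪ B).card := card_le_card (by
          intro i hi
          rw [mem_union, mem_sdiff]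
          by_cases hb : i ∈ B
          · exact Or.inr hb
          · exact Or.inl ⟨hi, hb⟩)
      _ ≤ _ := card_union_le _ _
  have hLr : (L.card : ℝ) ≤ ((L \ B).card : ℝ) + B.card := by exact_mod_cast hLc
  have hWr : ((L \ B).card : ℝ) ≤ (k0 + 1) * ((K : ℝ) / (k0 + k1 + 1) + 1) := by
    have h1 : ((L \ B).card : ℝ) ≤ (k0 + 1) * (((K / (k0 + k1 + 1) : ℕ) : ℝ) + 1) := by
      exact_mod_cast hW
    refine h1.trans ?_
    have h2 : ((K / (k0 + k1 + 1) : ℕ) : ℝ) ≤ (K : ℝ) / ((k0 + k1 + 1 : ℕ) : ℝ) := Nat.cast_div_le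
    push_cast at h2
    gcongr
  linarith


lemma t_pos {x : ℕ} (hx : 1 ≤ x) : 1 ≤ t x := by
  unfold t
  split_ifs <;> omega

lemma t_inj : Function.Injective t := by
  intro x y h
  unfold t at h
  split_ifs at h <;> omega

lemma t_iter_pos {x : ℕ} (hx : 1 ≤ x) (i : ℕ) : 1 ≤ t^[i] x := by
  induction i with
  | zero => simpa using hx
  | succ i ih => rw [Function.iterate_succ_apply']; exact t_pos ih

lemma T_cast (x : ℕ) : T (x : ℤ) = (t x : ℤ) := by
  unfold T t
  split_ifs <;> push_cast <;> omega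

lemma T_neg (x : ℤ) : T (-x) = -T x := by
  unfold T
  split_ifs <;> omega

lemma T_iter_cast (x i : ℕ) : T^[i] (x : ℤ) = (t^[i] x : ℤ) := by
  induction i with
  | zero => rfl
  | succ i ih => rw [Function.iterate_succ_apply', ih, T_cast, Function.iterate_succ_apply']

lemma T_iter_neg (x : ℤ) (i : ℕ) : T^[i] (-x) = -T^[i] x := by
  induction i with
  | zero => rfl
  | succ i ih => rw [Function.iterate_succ_apply', ih, T_neg, Function.iterate_succ_apply']

lemma gamma_eq : γ = 1 / 2 + Real.logb 3 (1 + √2 / 2) := by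
  have h3 : √(3 / 2 : ℝ) = √3 * (√2 / 2) := by
    rw [show (3 / 2 : ℝ) = 3 * (1 / 2) by norm_num, Real.sqrt_mul (by norm_num)]
    congr 1
    rw [Real.sqrt_div (by norm_num), Real.sqrt_one]
    have : √2 * √2 = (2 : ℝ) := Real.mul_self_sqrt (by norm_num)
    have h0 : (0 : ℝ) < √2 := by positivity
    field_simp
    linarith
  have h4 : √3 + √(3 / 2 : ℝ) = √3 * (1 + √2 / 2) := by rw [h3]; ring
  unfold γ
  rw [h4, Real.logb_mul (by positivity) (by positivity)]
  congr 1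
  rw [Real.sqrt_eq_rpow, Real.logb_rpow (by norm_num) (by norm_num)]

lemma gamma_pos : 1 / 2 < γ := by
  rw [gamma_eq]
  have : 0 < Real.logb 3 (1 + √2 / 2) := Real.logb_pos (by norm_num) (by
    have : (0 : ℝ) < √2 := by positivity
    linarith)
  linarith

lemma one_div_gamma : 1.013 < 1 / γ := by
  have h0 : 0 < γ := by linarith [gamma_pos]
  rw [lt_div_iff₀ h0]
  have h1 : √3 + √(3 / 2) < (2.9568 : ℝ) := by
    have h2 : √3 < (1.7320509 : ℝ) := (Real.sqrt_lt' (by norm_num)).2 (by norm_num)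
    have h3 : √(3 / 2) < (1.2247449 : ℝ) := (Real.sqrt_lt' (by norm_num)).2 (by norm_num)
    linarith
  have h4 : γ < Real.logb 3 2.9568 :=
    Real.logb_lt_logb (by norm_num) (by positivity) h1
  have h5 : Real.logb 3 2.9568 < 76 / 77 := by
    rw [Real.logb_lt_iff_lt_rpow (by norm_num) (by norm_num)]
    have h6 : ((2.9568 : ℝ) ^ (77 : ℕ)) < (3 : ℝ) ^ (76 : ℕ) := by norm_num
    have h7 : (2.9568 : ℝ) = ((2.9568 : ℝ) ^ (77 : ℕ)) ^ (1 / 77 : ℝ) := by
      rw [← Real.rpow_natCast, ← Real.rpow_mul (by norm_num)]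
      norm_num
    have h8 : (3 : ℝ) ^ (76 / 77 : ℝ) = ((3 : ℝ) ^ (76 : ℕ)) ^ (1 / 77 : ℝ) := by
      rw [← Real.rpow_natCast, ← Real.rpow_mul (by norm_num)]
      norm_num
    rw [h7, h8]
    exact Real.rpow_lt_rpow (by positivity) h6 (by norm_num)
  linarith



lemma gamma_lt_one : γ < 1 := by
  have h0 : 0 < γ := by linarith [gamma_pos]
  have h1 := one_div_gamma
  rw [lt_div_iff₀ h0] at h1
  linarith

lemma log_ratio : Real.log ((√3 + √(3 / 2)) / 3) = -((1 - γ) * Real.log 3) := by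
  have h3 : Real.log 3 ≠ 0 := (Real.log_pos (by norm_num)).ne'
  rw [Real.log_div (by positivity) (by norm_num)]
  unfold γ Real.logb
  field_simp
  ring

/-- The choice of the two parameters. -/
lemma asym {θ q : ℝ} (h1 : 1 ≤ θ) (h2 : θ < 1 / γ) (hq1 : q < 1)
    (hq : (1 - 1 / θ) / (2 - γ - 1 / θ) < q) : ∃ K₀ : ℕ, ∀ K : ℕ, K₀ ≤ K →
      ∃ k0 k1 : ℕ, k0 < k1 ∧ 3 ^ k1 ≤ ⌊(K : ℝ) ^ θ⌋₊ ∧
        ((k0 : ℝ) + 1) * ((K : ℝ) / (k0 + k1 + 1) + 1) +
          k1 * (16 * (⌊(K : ℝ) ^ θ⌋₊ : ℝ) * ((√3 + √(3 / 2)) / 3) ^ k0) ≤ q * K := by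
  have hγ0 : 0 < γ := by linarith [gamma_pos]
  have hγ1 := gamma_lt_one
  have hθ0 : 0 < θ := by linarith
  have hθγ : θ * γ < 1 := by rwa [lt_div_iff₀ hγ0] at h2
  have hl3 : 0 < Real.log 3 := Real.log_pos (by norm_num)
  set Λ : ℝ := (1 - γ) * Real.log 3 with hΛ
  have hΛ0 : 0 < Λ := mul_pos (by linarith) hl3
  have hiθ : 1 / θ ≤ 1 := by rw [div_le_one hθ0]; exact h1
  have hD : 0 < 2 - γ - 1 / θ := by linarith
  have hq2 : θ - 1 < q * (θ * (2 - γ) - 1) := by
    rw [div_lt_iff₀ hD] at hq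
    have e1 : θ * (1 - 1 / θ) = θ - 1 := by field_simp
    have e2 : θ * (q * (2 - γ - 1 / θ)) = q * (θ * (2 - γ) - 1) := by field_simp
    rw [← e1, ← e2]
    exact mul_lt_mul_of_pos_left hq hθ0
  set a1 : ℝ := θ / Real.log 3 with ha1
  have ha1pos : 0 < a1 := by positivity
  have hq3 : 0 < 1 - q := by linarith
  have hb : (θ - 1) / Λ < min a1 (a1 * q / (1 - q)) := by
    rw [lt_min_iff]
    constructor
    · rw [ha1, div_lt_div_iff₀ hΛ0 hl3, hΛ]
      nlinarith
    · rw [lt_div_iff₀ hq3, div_mul_eq_mul_div, div_lt_iff₀ hΛ0, ha1, hΛ]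
      have e3 : θ / Real.log 3 * q * ((1 - γ) * Real.log 3) = θ * q * (1 - γ) := by
        field_simp
      rw [e3]
      nlinarith
  obtain ⟨a0, hba, ha01⟩ := exists_between hb
  have ha0' : a0 < a1 := lt_of_lt_of_le ha01 (min_le_left _ _)
  have ha0'' : a0 < a1 * q / (1 - q) := lt_of_lt_of_le ha01 (min_le_right _ _)
  have ha0pos : 0 < a0 := lt_of_le_of_lt (div_nonneg (by linarith) hΛ0.le) hba
  have hfrac : a0 / (a0 + a1) < q := by
    rw [div_lt_iff₀ (by linarith)]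
    rw [lt_div_iff₀ hq3] at ha0''
    nlinarith
  set δ : ℝ := Λ * a0 - (θ - 1) with hδ
  have hδ0 : 0 < δ := by
    rw [div_lt_iff₀ hΛ0] at hba
    rw [hδ]; linarith
  -- limits
  have hL : Filter.Tendsto (fun K : ℕ => Real.log (K : ℝ)) Filter.atTop Filter.atTop :=
    Real.tendsto_log_atTop.comp tendsto_natCast_atTop_atTop
  have hk0 : Filter.Tendsto (fun K : ℕ => (⌈a0 * Real.log K⌉₊ : ℝ) / Real.log K) Filter.atTop
      (nhds a0) := (tendsto_nat_ceil_mul_div_atTop ha0pos.le).comp hL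
  have hk1 : Filter.Tendsto (fun K : ℕ => (⌊a1 * Real.log K⌋₊ : ℝ) / Real.log K) Filter.atTop
      (nhds a1) := (tendsto_nat_floor_mul_div_atTop ha1pos.le).comp hL
  have hinv : Filter.Tendsto (fun K : ℕ => 1 / Real.log (K : ℝ)) Filter.atTop (nhds 0) := by
    simp only [one_div]
    exact tendsto_inv_atTop_zero.comp hL
  have hLK : Filter.Tendsto (fun K : ℕ => Real.log (K : ℝ) / K) Filter.atTop (nhds 0) :=
    (Real.isLittleO_log_id_atTop.tendsto_div_nhds_zero).comp tendsto_natCast_atTop_atTop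
  have hLδ : Filter.Tendsto (fun K : ℕ => Real.log (K : ℝ) / (K : ℝ) ^ δ) Filter.atTop (nhds 0) :=
    ((isLittleO_log_rpow_atTop hδ0).tendsto_div_nhds_zero).comp tendsto_natCast_atTop_atTop
  have hsum : Filter.Tendsto (fun K : ℕ =>
      ((⌈a0 * Real.log K⌉₊ : ℝ) / Real.log K + 1 / Real.log K) /
        ((⌈a0 * Real.log K⌉₊ : ℝ) / Real.log K + (⌊a1 * Real.log K⌋₊ : ℝ) / Real.log K +
          1 / Real.log K) +
      ((⌈a0 * Real.log K⌉₊ : ℝ) / Real.log K + 1 / Real.log K) * (Real.log (K : ℝ) / K) +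
      16 * (a1 * (Real.log (K : ℝ) / (K : ℝ) ^ δ))) Filter.atTop
      (nhds ((a0 + 0) / (a0 + a1 + 0) + (a0 + 0) * 0 + 16 * (a1 * 0))) := by
    refine Filter.Tendsto.add (Filter.Tendsto.add ?_ ?_) ?_
    · exact (hk0.add hinv).div ((hk0.add hk1).add hinv) (by positivity)
    · exact (hk0.add hinv).mul hLK
    · exact (hLδ.const_mul a1).const_mul 16
  have hlim : (a0 + 0) / (a0 + a1 + 0) + (a0 + 0) * 0 + 16 * (a1 * 0) < q := by
    simpa using hfrac
  have hev := hsum.eventually_lt_const hlim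
  have hev2 := hk0.eventually_lt hk1 ha0'
  have hev3 := hL.eventually_gt_atTop 0
  obtain ⟨K₀, hK₀⟩ := Filter.eventually_atTop.1 ((hev.and hev2).and
    (hev3.and (Filter.eventually_ge_atTop 1)))
  refine ⟨K₀, fun K hK => ?_⟩
  obtain ⟨⟨hA, hB⟩, hC, hK1⟩ := hK₀ K hK
  have hK0 : (0 : ℝ) < K := by exact_mod_cast hK1
  set L : ℝ := Real.log (K : ℝ) with hLdef
  set k0 : ℕ := ⌈a0 * L⌉₊ with hk0def
  set k1 : ℕ := ⌊a1 * L⌋₊ with hk1def
  refine ⟨k0, k1, ?_, ?_, ?_⟩
  · have := (div_lt_div_iff_of_pos_right hC).1 hB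
    exact_mod_cast this
  · rw [Nat.le_floor_iff (by positivity)]
    push_cast
    have h3 : (k1 : ℝ) ≤ a1 * L := Nat.floor_le (by positivity)
    rw [← Real.log_le_log_iff (by positivity) (by positivity), Real.log_pow,
      Real.log_rpow hK0]
    calc (k1 : ℝ) * Real.log 3 ≤ a1 * L * Real.log 3 := by gcongr
      _ = θ * L := by rw [ha1]; field_simp
  · have hk1le : (k1 : ℝ) ≤ a1 * L := Nat.floor_le (by positivity)
    have hk0ge : a0 * L ≤ k0 := Nat.le_ceil _
    have hY : ((⌊(K : ℝ) ^ θ⌋₊ : ℕ) : ℝ) ≤ (K : ℝ) ^ θ := Nat.floor_le (by positivity)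
    have hpow : ((√3 + √(3 / 2)) / 3) ^ k0 ≤ (K : ℝ) ^ (-(Λ * a0)) := by
      rw [← Real.log_le_log_iff (by positivity) (by positivity), Real.log_pow, log_ratio,
        Real.log_rpow hK0, ← hΛ]
      nlinarith
    have hthird : k1 * (16 * (⌊(K : ℝ) ^ θ⌋₊ : ℝ) * ((√3 + √(3 / 2)) / 3) ^ k0) ≤
        K * (16 * (a1 * (L / (K : ℝ) ^ δ))) := by
      calc k1 * (16 * (⌊(K : ℝ) ^ θ⌋₊ : ℝ) * ((√3 + √(3 / 2)) / 3) ^ k0) ≤
            (a1 * L) * (16 * (K : ℝ) ^ θ * (K : ℝ) ^ (-(Λ * a0))) := by gcongr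
        _ = 16 * (a1 * L) * ((K : ℝ) ^ (1 : ℝ) * (K : ℝ) ^ (-δ)) := by
            rw [← Real.rpow_add hK0]
            have : (K : ℝ) ^ θ * (K : ℝ) ^ (-(Λ * a0)) = (K : ℝ) ^ (1 + -δ) := by
              rw [← Real.rpow_add hK0]; congr 1; rw [hδ]; ring
            linear_combination (16 * (a1 * L)) * this
        _ = K * (16 * (a1 * (L / (K : ℝ) ^ δ))) := by
            rw [Real.rpow_one, Real.rpow_neg hK0.le]
            field_simp
    have hfirst : ((k0 : ℝ) + 1) * ((K : ℝ) / (k0 + k1 + 1) + 1) =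
        K * (((k0 : ℝ) / L + 1 / L) / ((k0 : ℝ) / L + (k1 : ℝ) / L + 1 / L) +
          ((k0 : ℝ) / L + 1 / L) * (L / K)) := by
      have e1 : ((k0 : ℝ) / L + 1 / L) / ((k0 : ℝ) / L + (k1 : ℝ) / L + 1 / L) =
          ((k0 : ℝ) + 1) / (k0 + k1 + 1) := by
        rw [← add_div, ← add_div, ← add_div, div_div_div_cancel_right₀ hC.ne']
      rw [e1]
      field_simp
    rw [hfirst]
    calc _ ≤ K * (((k0 : ℝ) / L + 1 / L) / ((k0 : ℝ) / L + (k1 : ℝ) / L + 1 / L) +
          ((k0 : ℝ) / L + 1 / L) * (L / K)) + K * (16 * (a1 * (L / (K : ℝ) ^ δ))) := by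
          gcongr
      _ = K * (((k0 : ℝ) / L + 1 / L) / ((k0 : ℝ) / L + (k1 : ℝ) / L + 1 / L) +
          ((k0 : ℝ) / L + 1 / L) * (L / K) + 16 * (a1 * (L / (K : ℝ) ^ δ))) := by ring
      _ ≤ K * q := by
          gcongr
      _ = q * K := mul_comm _ _

lemma nat_version {θ ξ : ℝ} (hθ1 : 1 ≤ θ) (hθ : θ < 1 / γ)
    (hξ : ξ < (1 - γ) / (2 - γ - 1 / θ)) : ∃ K₀ : ℕ,
    ∀ m : ℕ, 1 ≤ m → ∀ K : ℕ, K₀ ≤ K → (∃ p, 1 ≤ p ∧ p < K ∧ t^[p] m = m) ∨
      ξ * K ≤ (((range K).filter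
        (fun i => (K : ℝ) ^ θ ≤ ((t^[i] m : ℕ) : ℝ))).card : ℝ) := by
  have hγ1 := gamma_lt_one
  have hθ0 : 0 < θ := by linarith
  have hiθ : 1 / θ ≤ 1 := by rw [div_le_one hθ0]; exact hθ1
  have hD : 0 < 2 - γ - 1 / θ := by linarith
  rcases le_or_gt ξ 0 with h0 | h0
  · refine ⟨0, fun m _ K _ => Or.inr ?_⟩
    have h1 : ξ * K ≤ 0 := mul_nonpos_of_nonpos_of_nonneg h0 (Nat.cast_nonneg _)
    exact h1.trans (Nat.cast_nonneg _)
  have hq : (1 - 1 / θ) / (2 - γ - 1 / θ) < 1 - ξ := by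
    have e : (1 - 1 / θ) / (2 - γ - 1 / θ) = 1 - (1 - γ) / (2 - γ - 1 / θ) := by
      rw [eq_sub_iff_add_eq, ← add_div, div_eq_one_iff_eq hD.ne']
      ring
    rw [e]
    linarith
  obtain ⟨K₀, hK₀⟩ := asym hθ1 hθ (by linarith : 1 - ξ < 1) hq
  refine ⟨K₀, fun m hm K hK => ?_⟩
  by_cases hper : ∃ p, 1 ≤ p ∧ p < K ∧ t^[p] m = m
  · exact Or.inl hper
  right
  have hinj : ∀ i < K, ∀ j < K, t^[i] m = t^[j] m → i = j := by
    have key : ∀ i j, i < j → j < K → t^[i] m ≠ t^[j] m := by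
      intro i j hij hj h
      apply hper
      refine ⟨j - i, by omega, by omega, ?_⟩
      have h1 : t^[i] (t^[j - i] m) = t^[i] m := by
        rw [← Function.iterate_add_apply, h]
        congr 2
        omega
      exact t_inj.iterate i h1
    intro i hi j hj h
    rcases lt_trichotomy i j with hl | hl | hl
    · exact absurd h (key i j hl hj)
    · exact hl
    · exact absurd h.symm (key j i hl hi)
  obtain ⟨k0, k1, h01, hY, hmain⟩ := hK₀ K hK
  have hlow := low_count h01 hY m (fun i => t_iter_pos hm i) hinj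
  have hsplit : ((range K).filter (fun i => t^[i] m ≤ ⌊(K : ℝ) ^ θ⌋₊)).card +
      ((range K).filter (fun i => ¬ t^[i] m ≤ ⌊(K : ℝ) ^ θ⌋₊)).card = K := by
    rw [card_filter_add_card_filter_not, card_range]
  have hsplit' : (((range K).filter (fun i => t^[i] m ≤ ⌊(K : ℝ) ^ θ⌋₊)).card : ℝ) +
      (((range K).filter (fun i => ¬ t^[i] m ≤ ⌊(K : ℝ) ^ θ⌋₊)).card : ℝ) = K := by
    exact_mod_cast hsplit
  have hsub : (range K).filter (fun i => ¬ t^[i] m ≤ ⌊(K : ℝ) ^ θ⌋₊) ⊆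
      (range K).filter (fun i => (K : ℝ) ^ θ ≤ ((t^[i] m : ℕ) : ℝ)) := by
    intro i hi
    rw [mem_filter] at hi ⊢
    refine ⟨hi.1, ?_⟩
    have h1 := (Nat.floor_lt (by positivity)).1 (not_le.1 hi.2)
    exact h1.le
  have hcard : (((range K).filter (fun i => ¬ t^[i] m ≤ ⌊(K : ℝ) ^ θ⌋₊)).card : ℝ) ≤
      (((range K).filter (fun i => (K : ℝ) ^ θ ≤ ((t^[i] m : ℕ) : ℝ))).card : ℝ) := by
    exact_mod_cast card_le_card hsub
  have := hlow.trans hmain
  linarith

/-- For `1 ≤ θ < 1 / γ` and `ξ < (1 - γ) / (2 - γ - 1 / θ)` (a number in `(1/2, 1]`), for all large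
`K` and every nonzero `n`, either `T ^ p n = n` for some `1 ≤ p < K`, or at least `ξ K` of the
numbers `T ^ i n`, `i < K`, are at least `K ^ θ` in absolute value. -/
theorem main :
    1.013 < 1 / γ ∧ ∀ θ ξ : ℝ, 1 ≤ θ → θ < 1 / γ → ξ < (1 - γ) / (2 - γ - 1 / θ) →
      ∃ K₀ : ℕ, ∀ n : ℤ, n ≠ 0 → ∀ K : ℕ, K₀ ≤ K →
        (∃ p : ℕ, 1 ≤ p ∧ p < K ∧ T^[p] n = n) ∨
          ξ * K ≤ (((range K).filter
            (fun i => (K : ℝ) ^ θ ≤ |((T^[i] n : ℤ) : ℝ)|)).card : ℝ) := by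
  refine ⟨one_div_gamma, fun θ ξ hθ1 hθ hξ => ?_⟩
  obtain ⟨K₀, h⟩ := nat_version hθ1 hθ hξ
  refine ⟨K₀, fun n hn K hK => ?_⟩
  obtain ⟨m, hnm⟩ := Int.eq_nat_or_neg n
  have hm : 1 ≤ m := by rcases hnm with h | h <;> omega
  rcases h m hm K hK with ⟨p, h1, h2, h3⟩ | h
  · left
    refine ⟨p, h1, h2, ?_⟩
    rcases hnm with rfl | rfl
    · rw [T_iter_cast, h3]
    · rw [T_iter_neg, T_iter_cast, h3]
  · right
    have habs : ∀ i, |((T^[i] n : ℤ) : ℝ)| = ((t^[i] m : ℕ) : ℝ) := by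
      intro i
      rcases hnm with rfl | rfl
      · rw [T_iter_cast, Int.cast_natCast, abs_of_nonneg (Nat.cast_nonneg _)]
      · rw [T_iter_neg, T_iter_cast, Int.cast_neg, Int.cast_natCast, abs_neg,
          abs_of_nonneg (Nat.cast_nonneg _)]
    simpa only [habs] using h

end Pool.Agent.H12.TG
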