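import Pool.Agent.H12.TG.Growth

set_option autoImplicit false

/-!
# The geometric mean of a long piece of a trajectory

Write `k_i` for `log_3 x_i`, rounded down and cut off at `M`. For almost all `i` the product
`x_i x_(i + k_i)` is at least `Z ^ 2`, `Z = K ^ (1 - ε) (3 / (sqrt 3 + sqrt (3/2))) ^ k_i`, so that
`k_(i + k_i) + (2 γ - 1) k_i >= R`, about `2 log_3 K`. This is multiplied by the step
`1 + k_(i+1) - k_i` of the map `i -> i + k_i` and summed.
-/

namespace Pool.Agent.H12.TG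

open Finset

lemma ratio_pos : 0 < (√3 + √(3 / 2 : ℝ)) / 3 := by positivity

lemma pair_block {j K : ℕ} {Z : ℝ} (hZ0 : 0 < Z) (m : ℕ)
    (hpos : ∀ i, 1 ≤ t^[i] m) (hinj : ∀ i < K, ∀ j < K, t^[i] m = t^[j] m → i = j) :
    (((range K).filter (fun i => Nat.log 3 (t^[i] m) = j ∧
        ((t^[i] m : ℕ) : ℝ) * ((t^[i + j] m : ℕ) : ℝ) < Z ^ 2)).card : ℝ) ≤
      3 * (Z * ((√3 + √(3 / 2)) / 3) ^ j) := by
  set B := (range K).filter (fun i => Nat.log 3 (t^[i] m) = j ∧
        ((t^[i] m : ℕ) : ℝ) * ((t^[i + j] m : ℕ) : ℝ) < Z ^ 2) with hB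
  set Y : ℕ := ⌊Z ^ 2 / 3 ^ j⌋₊ with hY
  have hYle : (Y : ℝ) ≤ Z ^ 2 / 3 ^ j := Nat.floor_le (by positivity)
  have h4 : B.card ≤ ((Ico (3 ^ j) (3 ^ (j + 1))).filter (fun x => t^[j] x ≤ Y)).card := by
    refine card_le_card_of_injOn (fun i => t^[i] m) ?_ ?_
    · intro i hi
      have hi2 := mem_filter.1 (mem_coe.1 hi)
      have hp := hpos i
      have e1 : 3 ^ j ≤ t^[i] m := by
        rw [← hi2.2.1]; exact Nat.pow_log_le_self 3 (by omega)
      have e2 : t^[i] m < 3 ^ (j + 1) := by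
        rw [← hi2.2.1]; exact Nat.lt_pow_succ_log_self (by norm_num) _
      rw [mem_coe, mem_filter, mem_Ico]
      refine ⟨⟨e1, e2⟩, ?_⟩
      have e3 : t^[j] (t^[i] m) = t^[i + j] m := by
        rw [← Function.iterate_add_apply, add_comm j i]
      show t^[j] (t^[i] m) ≤ Y
      rw [e3]
      refine Nat.le_floor ?_
      rw [le_div_iff₀ (by positivity)]
      have e4 : ((3 : ℝ) ^ j) ≤ ((t^[i] m : ℕ) : ℝ) := by exact_mod_cast e1
      calc ((t^[i + j] m : ℕ) : ℝ) * 3 ^ j ≤ ((t^[i + j] m : ℕ) : ℝ) * ((t^[i] m : ℕ) : ℝ) := by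
            gcongr
        _ = ((t^[i] m : ℕ) : ℝ) * ((t^[i + j] m : ℕ) : ℝ) := mul_comm _ _
        _ ≤ Z ^ 2 := hi2.2.2.le
    · intro i hi j' hj' hij
      have hi2 := mem_filter.1 (mem_coe.1 hi)
      have hj2 := mem_filter.1 (mem_coe.1 hj')
      exact hinj i (mem_range.1 hi2.1) j' (mem_range.1 hj2.1) hij
  have h5 : (B.card : ℝ) ≤
      (((Ico (3 ^ j) (3 ^ (j + 1))).filter (fun x => t^[j] x ≤ Y)).card : ℝ) := by
    exact_mod_cast h4
  refine h5.trans ((block_card (le_refl j) (le_refl j)).trans ?_)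
  have hs33 : √3 * √3 = (3 : ℝ) := Real.mul_self_sqrt (by norm_num)
  have hsY : √(Y : ℝ) ≤ Z / √3 ^ j := by
    calc √(Y : ℝ) ≤ √(Z ^ 2 / 3 ^ j) := Real.sqrt_le_sqrt hYle
      _ = Z / √3 ^ j := by
        rw [Real.sqrt_div (by positivity), Real.sqrt_sq hZ0.le, sqrt_pow_eq (by norm_num)]
  have h2 : 2 * √2 ≤ (3 : ℝ) := by
    have : √2 ≤ (1.5 : ℝ) := Real.sqrt_le_iff.2 ⟨by norm_num, by norm_num⟩
    linarith
  have e : (3 : ℝ) ^ j = √3 ^ j * √3 ^ j := by
    rw [← mul_pow, hs33]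
  rw [Nat.sub_self, pow_zero, pow_zero, mul_one, mul_one]
  calc 2 * (√3 + √(3 / 2)) ^ j * (√2 * √(Y : ℝ) / √3 ^ j) ≤
        2 * (√3 + √(3 / 2)) ^ j * (√2 * (Z / √3 ^ j) / √3 ^ j) := by gcongr
    _ = (2 * √2) * (Z * ((√3 + √(3 / 2)) / 3) ^ j) := by
        rw [div_pow, e]
        have h3j : √3 ^ j ≠ 0 := by positivity
        field_simp
    _ ≤ 3 * (Z * ((√3 + √(3 / 2)) / 3) ^ j) := by
        have := ratio_pos
        gcongr

lemma log_step_up {x : ℕ} (hx : 1 ≤ x) : Nat.log 3 (t x) ≤ Nat.log 3 x + 1 := by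
  have h1 : x < 3 ^ (Nat.log 3 x + 1) := Nat.lt_pow_succ_log_self (by norm_num) x
  have h2 : t x < 3 ^ (Nat.log 3 x + 1 + 1) := by
    rw [pow_succ 3 (Nat.log 3 x + 1)]
    have : t x ≤ 2 * x := by
      unfold t
      split_ifs <;> omega
    omega
  have h3 : 1 ≤ t x := t_pos hx
  have := Nat.log_lt_of_lt_pow (by omega) h2
  omega

lemma log_step_down {x : ℕ} (hx : 1 ≤ x) : Nat.log 3 x ≤ Nat.log 3 (t x) + 1 := by
  rcases Nat.eq_zero_or_pos (Nat.log 3 x) with h | h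
  · omega
  obtain ⟨a, ha⟩ : ∃ a, Nat.log 3 x = a + 1 := ⟨Nat.log 3 x - 1, by omega⟩
  have h1 : 3 ^ (a + 1) ≤ x := by rw [← ha]; exact Nat.pow_log_le_self 3 (by omega)
  have h2 : 3 ^ a ≤ t x := by
    rw [pow_succ] at h1
    have : 2 * x ≤ 3 * t x := by
      unfold t
      split_ifs <;> omega
    omega
  have := Nat.le_log_of_pow_le (by norm_num) h2
  omega

/-- Summation along the map `i ↦ i + k i`. -/
lemma cov (k : ℕ → ℕ) (hup : ∀ i, k (i + 1) ≤ k i + 1)
    (hdn : ∀ i, k i ≤ k (i + 1) + 1) (n : ℕ) :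
    ∑ i ∈ range n, ((1 : ℝ) + k (i + 1) - k i) * (k (i + k i) : ℝ) ≤
      ∑ j ∈ Ico (k 0) (n + k n), ((k j : ℝ) + 1) := by
  induction n with
  | zero => simp
  | succ n ih =>
    rw [sum_range_succ]
    have hmono : n + k n ≤ n + 1 + k (n + 1) := by have := hdn n; omega
    have h0 : k 0 ≤ n + k n := by
      have : ∀ i, k 0 ≤ i + k i := by
        intro i
        induction i with
        | zero => simp
        | succ i ih2 => have := hdn i; omega
      exact this n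
    rw [← sum_Ico_consecutive _ h0 hmono]
    refine add_le_add ih ?_
    have hu := hup n
    have hd := hdn n
    rcases (by omega : k (n + 1) + 1 = k n ∨ k (n + 1) = k n ∨ k (n + 1) = k n + 1) with h | h | h
    · have e1 : n + 1 + k (n + 1) = n + k n := by omega
      have e2 : (k n : ℝ) = k (n + 1) + 1 := by rw [← h]; push_cast; ring
      rw [e1, Ico_self, sum_empty, e2]
      have : (1 : ℝ) + k (n + 1) - (k (n + 1) + 1) = 0 := by ring
      rw [this, zero_mul]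
    · have e1 : n + 1 + k (n + 1) = n + k n + 1 := by omega
      rw [e1, Nat.Ico_succ_singleton, sum_singleton, h]
      have : (1 : ℝ) + k n - k n = 1 := by ring
      rw [this, one_mul]
      linarith
    · have e1 : n + 1 + k (n + 1) = n + k n + 1 + 1 := by omega
      have e3 : k (n + k n) ≤ k (n + k n + 1) + 1 := hdn _
      have e4 : (k (n + k n) : ℝ) ≤ k (n + k n + 1) + 1 := by exact_mod_cast e3
      rw [e1, sum_Ico_succ_top (by omega), Nat.Ico_succ_singleton, sum_singleton, h]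
      push_cast
      have : (1 : ℝ) + ((k n : ℝ) + 1) - k n = 2 := by ring
      rw [this]
      linarith

lemma abel (k : ℕ → ℕ) (n : ℕ) :
    ∑ i ∈ range n, ((1 : ℝ) + k (i + 1) - k i) * (k i : ℝ) ≤
      ∑ i ∈ range n, (k i : ℝ) + (k n : ℝ) ^ 2 / 2 := by
  have h : ∑ i ∈ range n, ((1 : ℝ) + k (i + 1) - k i) * (k i : ℝ) ≤
      ∑ i ∈ range n, (k i : ℝ) + ((k n : ℝ) ^ 2 / 2 - (k 0 : ℝ) ^ 2 / 2) := by
    induction n with
    | zero => simp
    | succ n ih =>
      rw [sum_range_succ, sum_range_succ]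
      nlinarith [sq_nonneg ((k (n + 1) : ℝ) - k n)]
  have : 0 ≤ (k 0 : ℝ) ^ 2 / 2 := by positivity
  linarith

lemma tele (k : ℕ → ℕ) (n : ℕ) :
    ∑ i ∈ range n, ((1 : ℝ) + k (i + 1) - k i) = n + k n - k 0 := by
  induction n with
  | zero => simp
  | succ n ih => rw [sum_range_succ, ih]; push_cast; ring

/-- The combinatorial core. -/
lemma core (k : ℕ → ℕ) {M K : ℕ} (hMK : M ≤ K) (hM : ∀ i, k i ≤ M)
    (hup : ∀ i, k (i + 1) ≤ k i + 1) (hdn : ∀ i, k i ≤ k (i + 1) + 1) (E : Finset ℕ)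
    {R g : ℝ} (hR : 0 ≤ R) (hg : 0 ≤ g)
    (hE : ∀ i < K, i ∉ E → R ≤ (k (i + k i) : ℝ) + g * k i) :
    R * ((K : ℝ) - 2 * M) - 2 * R * E.card ≤
      (1 + g) * ∑ i ∈ range K, (k i : ℝ) + K + g * ((M : ℝ) ^ 2 / 2) := by
  set n := K - M with hn
  have hnK : n + M = K := by omega
  have hkn : n + k n ≤ K := by have := hM n; omega
  have h1 := cov k hup hdn n
  have h2 := abel k n
  have h3 := tele k n
  have hs : ∑ i ∈ range n, ((1 : ℝ) + k (i + 1) - k i) * R - 2 * R * E.card ≤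
      ∑ i ∈ range n, ((1 : ℝ) + k (i + 1) - k i) * ((k (i + k i) : ℝ) + g * k i) := by
    have h4 : ∀ i ∈ range n, ((1 : ℝ) + k (i + 1) - k i) * R - (if i ∈ E then 2 * R else 0) ≤
        ((1 : ℝ) + k (i + 1) - k i) * ((k (i + k i) : ℝ) + g * k i) := by
      intro i hi
      have hiK : i < K := by have := mem_range.1 hi; omega
      have hu : (k (i + 1) : ℝ) ≤ k i + 1 := by exact_mod_cast hup i
      have hd : (k i : ℝ) ≤ k (i + 1) + 1 := by exact_mod_cast hdn i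
      have hJ0 : 0 ≤ (1 : ℝ) + k (i + 1) - k i := by linarith
      have hJ2 : (1 : ℝ) + k (i + 1) - k i ≤ 2 := by linarith
      have hnn : 0 ≤ (k (i + k i) : ℝ) + g * k i := by positivity
      by_cases hiE : i ∈ E
      · rw [if_pos hiE]
        have : ((1 : ℝ) + k (i + 1) - k i) * R ≤ 2 * R := by gcongr
        have h5 := mul_nonneg hJ0 hnn
        linarith
      · rw [if_neg hiE, sub_zero]
        exact mul_le_mul_of_nonneg_left (hE i hiK hiE) hJ0
    have h5 := sum_le_sum h4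
    rw [sum_sub_distrib] at h5
    have h6 : ∑ i ∈ range n, (if i ∈ E then 2 * R else 0) ≤ 2 * R * E.card := by
      rw [← sum_filter, sum_const, nsmul_eq_mul, mul_comm]
      have h7 : ((range n).filter (fun i => i ∈ E)).card ≤ E.card :=
        card_le_card (fun i hi => (mem_filter.1 hi).2)
      have h8 : (((range n).filter (fun i => i ∈ E)).card : ℝ) ≤ E.card := by exact_mod_cast h7
      gcongr
    linarith
  have hsplit : ∑ i ∈ range n, ((1 : ℝ) + k (i + 1) - k i) * ((k (i + k i) : ℝ) + g * k i) =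
      ∑ i ∈ range n, ((1 : ℝ) + k (i + 1) - k i) * (k (i + k i) : ℝ) +
        g * ∑ i ∈ range n, ((1 : ℝ) + k (i + 1) - k i) * (k i : ℝ) := by
    rw [mul_sum, ← sum_add_distrib]
    exact sum_congr rfl (fun i _ => by ring)
  rw [hsplit, ← sum_mul, h3] at hs
  have hA : ∑ j ∈ Ico (k 0) (n + k n), ((k j : ℝ) + 1) ≤ ∑ i ∈ range K, (k i : ℝ) + K := by
    have h5 : ∑ j ∈ Ico (k 0) (n + k n), ((k j : ℝ) + 1) ≤ ∑ j ∈ range K, ((k j : ℝ) + 1) := by
      refine sum_le_sum_of_subset_of_nonneg ?_ (fun j _ _ => by positivity)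
      intro j hj
      have := mem_Ico.1 hj
      exact mem_range.2 (by omega)
    rw [sum_add_distrib (s := range K), sum_const, card_range, nsmul_eq_mul, mul_one] at h5
    exact h5
  have hB : ∑ i ∈ range n, (k i : ℝ) ≤ ∑ i ∈ range K, (k i : ℝ) :=
    sum_le_sum_of_subset_of_nonneg (range_subset_range.2 (by omega)) (fun j _ _ => by positivity)
  have hkM : (k n : ℝ) ≤ M := by exact_mod_cast hM n
  have hkM0 : (k 0 : ℝ) ≤ M := by exact_mod_cast hM 0
  have hsq : (k n : ℝ) ^ 2 ≤ (M : ℝ) ^ 2 := by gcongr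
  have hnr : (n : ℝ) = K - M := by
    have : (n : ℝ) + M = K := by exact_mod_cast hnK
    linarith
  have hk0 : (0 : ℝ) ≤ k n := Nat.cast_nonneg _
  have hC : g * ∑ i ∈ range n, ((1 : ℝ) + k (i + 1) - k i) * (k i : ℝ) ≤
      g * (∑ i ∈ range K, (k i : ℝ) + (M : ℝ) ^ 2 / 2) := by
    refine mul_le_mul_of_nonneg_left ?_ hg
    linarith
  have hD : R * ((K : ℝ) - 2 * M) ≤ ((n : ℝ) + k n - k 0) * R := by
    rw [mul_comm R]
    refine mul_le_mul_of_nonneg_right ?_ hR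
    linarith
  linarith

lemma gamma_ge : 5 / 6 ≤ γ := by
  unfold γ
  rw [Real.le_logb_iff_rpow_le (by norm_num) (by positivity)]
  have h1 : (2.5 : ℝ) ≤ √3 + √(3 / 2) := by
    have h2 : (1.7 : ℝ) ≤ √3 := Real.le_sqrt_of_sq_le (by norm_num)
    have h3 : (1.2 : ℝ) ≤ √(3 / 2) := Real.le_sqrt_of_sq_le (by norm_num)
    linarith
  refine le_trans ?_ h1
  have h7 : (2.5 : ℝ) = ((2.5 : ℝ) ^ (6 : ℕ)) ^ (1 / 6 : ℝ) := by
    rw [← Real.rpow_natCast, ← Real.rpow_mul (by norm_num)]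
    norm_num
  have h8 : (3 : ℝ) ^ (5 / 6 : ℝ) = ((3 : ℝ) ^ (5 : ℕ)) ^ (1 / 6 : ℝ) := by
    rw [← Real.rpow_natCast, ← Real.rpow_mul (by norm_num)]
    norm_num
  rw [h7, h8]
  exact Real.rpow_le_rpow (by positivity) (by norm_num) (by norm_num)

lemma mean_lower {M K : ℕ} {A : ℝ} (hMK : M ≤ K) (hA : 3 ≤ A) (m : ℕ)
    (hMA : 3 * (Real.log A / Real.log 3) ≤ M)
    (hpos : ∀ i, 1 ≤ t^[i] m) (hinj : ∀ i < K, ∀ j < K, t^[i] m = t^[j] m → i = j) :
    (2 * (Real.log A / Real.log 3) - 2) * ((K : ℝ) - 2 * M) -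
      2 * (2 * (Real.log A / Real.log 3) - 2) * (M * (3 * A)) ≤
      2 * γ * ((∑ i ∈ range K, Real.log ((t^[i] m : ℕ) : ℝ)) / Real.log 3) + K +
        (2 * γ - 1) * ((M : ℝ) ^ 2 / 2) := by
  have hγ1 := gamma_lt_one
  have hγ2 := gamma_ge
  have hA0 : 0 < A := by linarith
  have hl3 : 0 < Real.log 3 := Real.log_pos (by norm_num)
  set a : ℝ := Real.log A / Real.log 3 with ha
  have ha1 : 1 ≤ a := by
    rw [ha, le_div_iff₀ hl3, one_mul]
    exact Real.log_le_log (by norm_num) hA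
  have hr := ratio_pos
  set Z : ℕ → ℝ := fun j => A / ((√3 + √(3 / 2)) / 3) ^ j with hZ
  have hZpos : ∀ j, 0 < Z j := fun j => by positivity
  have hZr : ∀ j, Z j * ((√3 + √(3 / 2)) / 3) ^ j = A := fun j => by
    rw [hZ]; exact div_mul_cancel₀ _ (by positivity)
  have hlogZ : ∀ j : ℕ, Real.log (Z j) = (a + (1 - γ) * j) * Real.log 3 := by
    intro j
    rw [hZ]
    simp only
    rw [Real.log_div (by positivity) (by positivity), Real.log_pow, log_ratio, ha]
    field_simp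
    ring
  set k : ℕ → ℕ := fun i => min (Nat.log 3 (t^[i] m)) M with hk
  set E := (range M).biUnion (fun j => (range K).filter (fun i => Nat.log 3 (t^[i] m) = j ∧
        ((t^[i] m : ℕ) : ℝ) * ((t^[i + j] m : ℕ) : ℝ) < Z j ^ 2)) with hE
  have hEc : (E.card : ℝ) ≤ M * (3 * A) := by
    have h1 : (E.card : ℝ) ≤ ∑ j ∈ range M, (((range K).filter (fun i =>
        Nat.log 3 (t^[i] m) = j ∧
        ((t^[i] m : ℕ) : ℝ) * ((t^[i + j] m : ℕ) : ℝ) < Z j ^ 2)).card : ℝ) :=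
      (Nat.cast_le.2 card_biUnion_le).trans (le_of_eq (Nat.cast_sum _ _))
    refine h1.trans ((sum_le_sum (fun j _ => pair_block (hZpos j) m hpos hinj)).trans ?_)
    simp only [hZr]
    rw [sum_const, card_range, nsmul_eq_mul]
  have hstep : ∀ i, t^[i + 1] m = t (t^[i] m) := fun i => Function.iterate_succ_apply' t i m
  have hcore := core k hMK (fun i => min_le_right _ _)
    (fun i => by
      have h1 := log_step_up (hpos i)
      rw [← hstep i] at h1
      simp only [hk]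
      omega)
    (fun i => by
      have h1 := log_step_down (hpos i)
      rw [← hstep i] at h1
      simp only [hk]
      omega) E (R := 2 * a - 2) (g := 2 * γ - 1) (by linarith) (by linarith) ?_
  · have hsum : (∑ i ∈ range K, (k i : ℝ)) ≤
        (∑ i ∈ range K, Real.log ((t^[i] m : ℕ) : ℝ)) / Real.log 3 := by
      rw [sum_div]
      refine sum_le_sum (fun i _ => ?_)
      rw [le_div_iff₀ hl3]
      have h1 : 3 ^ Nat.log 3 (t^[i] m) ≤ t^[i] m :=
        Nat.pow_log_le_self 3 (by have := hpos i; omega)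
      have h2 : (3 : ℝ) ^ Nat.log 3 (t^[i] m) ≤ ((t^[i] m : ℕ) : ℝ) := by exact_mod_cast h1
      have h3 := Real.log_le_log (by positivity) h2
      rw [Real.log_pow] at h3
      have h4 : (k i : ℝ) ≤ (Nat.log 3 (t^[i] m) : ℝ) := by
        exact_mod_cast min_le_left _ _
      calc (k i : ℝ) * Real.log 3 ≤ (Nat.log 3 (t^[i] m) : ℝ) * Real.log 3 := by gcongr
        _ ≤ _ := h3
    have h5 : (1 + (2 * γ - 1)) * ∑ i ∈ range K, (k i : ℝ) ≤
        2 * γ * ((∑ i ∈ range K, Real.log ((t^[i] m : ℕ) : ℝ)) / Real.log 3) := by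
      have : (1 + (2 * γ - 1)) = 2 * γ := by ring
      rw [this]
      gcongr
    have h6 : 2 * (2 * a - 2) * (E.card : ℝ) ≤ 2 * (2 * a - 2) * (M * (3 * A)) := by
      have : 0 ≤ 2 * (2 * a - 2) := by linarith
      gcongr
    linarith
  · intro i hi hiE
    have hkdef : k i = min (Nat.log 3 (t^[i] m)) M := rfl
    rcases Nat.lt_or_ge (Nat.log 3 (t^[i] m)) M with hj | hj
    · set j := Nat.log 3 (t^[i] m) with hjdef
      have hki : k i = j := by rw [hkdef]; omega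
      rw [hki]
      have hnot : Z j ^ 2 ≤ ((t^[i] m : ℕ) : ℝ) * ((t^[i + j] m : ℕ) : ℝ) := by
        by_contra hcon
        apply hiE
        rw [hE, mem_biUnion]
        exact ⟨j, mem_range.2 hj, mem_filter.2 ⟨mem_range.2 hi, hjdef.symm, not_le.1 hcon⟩⟩
      set b := Nat.log 3 (t^[i + j] m) with hb
      have hkb : k (i + j) = min b M := rfl
      have h1 : ((t^[i] m : ℕ) : ℝ) < 3 ^ (j + 1) := by
        exact_mod_cast Nat.lt_pow_succ_log_self (by norm_num : 1 < 3) (t^[i] m)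
      have h2 : ((t^[i + j] m : ℕ) : ℝ) < 3 ^ (b + 1) := by
        exact_mod_cast Nat.lt_pow_succ_log_self (by norm_num : 1 < 3) (t^[i + j] m)
      have h3 : Z j ^ 2 ≤ 3 ^ (j + 1) * 3 ^ (b + 1) := by
        refine hnot.trans ?_
        gcongr
      have hZj := hZpos j
      have h4 := Real.log_le_log (by positivity) h3
      rw [← pow_add, Real.log_pow, Real.log_pow, hlogZ j] at h4
      push_cast at h4
      have h5 : 2 * (a + (1 - γ) * j) ≤ (j : ℝ) + 1 + (b + 1) := by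
        have h6 : (2 * (a + (1 - γ) * j)) * Real.log 3 ≤ ((j : ℝ) + 1 + (b + 1)) * Real.log 3 := by
          linarith
        exact le_of_mul_le_mul_right h6 hl3
      rcases Nat.lt_or_ge b M with hbM | hbM
      · have : (k (i + j) : ℝ) = b := by rw [hkb]; norm_cast; omega
        rw [this]
        linarith
      · have : (k (i + j) : ℝ) = M := by rw [hkb]; norm_cast; omega
        rw [this]
        have hj0 : 0 ≤ (2 * γ - 1) * (j : ℝ) := by
          have : 0 ≤ 2 * γ - 1 := by linarith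
          positivity
        linarith
    · have hki : k i = M := by rw [hkdef]; omega
      rw [hki]
      have h1 : (0 : ℝ) ≤ (k (i + M) : ℝ) := Nat.cast_nonneg _
      have h2 : (2 : ℝ) / 3 * M ≤ (2 * γ - 1) * M := by
        have : (0 : ℝ) ≤ M := Nat.cast_nonneg _
        nlinarith
      linarith

/-- The geometric mean, natural numbers. -/
lemma mean_nat {c : ℝ} (hc : c < 1 / γ) : ∃ K₀ : ℕ, ∀ m : ℕ, 1 ≤ m → ∀ K : ℕ, K₀ ≤ K →
    (∃ p, 1 ≤ p ∧ p < K ∧ t^[p] m = m) ∨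
      c * (K * Real.log K) ≤ ∑ i ∈ range K, Real.log ((t^[i] m : ℕ) : ℝ) := by
  have hγ0 : 0 < γ := by linarith [gamma_pos]
  have hγ1 := gamma_lt_one
  have hγ2 := gamma_ge
  have hl3 : 0 < Real.log 3 := Real.log_pos (by norm_num)
  have hcγ : c * γ < 1 := by rwa [lt_div_iff₀ hγ0] at hc
  -- the parameter
  obtain ⟨ε, hε0, hε1, hεc⟩ : ∃ ε : ℝ, 0 < ε ∧ ε < 1 ∧ c < (1 - ε) / γ := by
    refine ⟨min (1 / 2) ((1 - c * γ) / 2), lt_min (by norm_num) (by linarith), ?_, ?_⟩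
    · exact lt_of_le_of_lt (min_le_left _ _) (by norm_num)
    · rw [lt_div_iff₀ hγ0]
      have := min_le_right (1 / 2 : ℝ) ((1 - c * γ) / 2)
      linarith
  set b : ℝ := 3 / Real.log 3 with hb
  have hbpos : 0 < b := by positivity
  set r0 : ℝ := 2 * ((1 - ε) / Real.log 3) with hr0
  have hr0pos : 0 < r0 := by
    have : 0 < 1 - ε := by linarith
    positivity
  have hL : Filter.Tendsto (fun K : ℕ => Real.log (K : ℝ)) Filter.atTop Filter.atTop :=
    Real.tendsto_log_atTop.comp tendsto_natCast_atTop_atTop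
  have hM : Filter.Tendsto (fun K : ℕ => (⌈b * Real.log K⌉₊ : ℝ) / Real.log K) Filter.atTop
      (nhds b) := (tendsto_nat_ceil_mul_div_atTop hbpos.le).comp hL
  have hinv : Filter.Tendsto (fun K : ℕ => 1 / Real.log (K : ℝ)) Filter.atTop (nhds 0) := by
    simp only [one_div]
    exact tendsto_inv_atTop_zero.comp hL
  have hLK : Filter.Tendsto (fun K : ℕ => Real.log (K : ℝ) / K) Filter.atTop (nhds 0) :=
    (Real.isLittleO_log_id_atTop.tendsto_div_nhds_zero).comp tendsto_natCast_atTop_atTop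
  have hLε : Filter.Tendsto (fun K : ℕ => Real.log (K : ℝ) / (K : ℝ) ^ ε) Filter.atTop (nhds 0) :=
    ((isLittleO_log_rpow_atTop hε0).tendsto_div_nhds_zero).comp tendsto_natCast_atTop_atTop
  have hR : Filter.Tendsto (fun K : ℕ => r0 - 2 * (1 / Real.log (K : ℝ))) Filter.atTop
      (nhds (r0 - 2 * 0)) := (hinv.const_mul 2).const_sub r0
  have hmain : Filter.Tendsto (fun K : ℕ =>
      Real.log 3 / (2 * γ) *
        ((r0 - 2 * (1 / Real.log (K : ℝ))) *
            (1 - 2 * (((⌈b * Real.log K⌉₊ : ℝ) / Real.log K) * (Real.log (K : ℝ) / K))) -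
          6 * ((r0 - 2 * (1 / Real.log (K : ℝ))) *
            (((⌈b * Real.log K⌉₊ : ℝ) / Real.log K) * (Real.log (K : ℝ) / (K : ℝ) ^ ε))) -
          1 / Real.log (K : ℝ) -
          (2 * γ - 1) / 2 * (((⌈b * Real.log K⌉₊ : ℝ) / Real.log K) *
            ((⌈b * Real.log K⌉₊ : ℝ) / Real.log K) * (Real.log (K : ℝ) / K)))) Filter.atTop
      (nhds (Real.log 3 / (2 * γ) *
        ((r0 - 2 * 0) * (1 - 2 * (b * 0)) - 6 * ((r0 - 2 * 0) * (b * 0)) - 0 -
          (2 * γ - 1) / 2 * (b * b * 0)))) :=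
    (((((hR.mul (((hM.mul hLK).const_mul 2).const_sub 1)).sub
      ((hR.mul (hM.mul hLε)).const_mul 6)).sub hinv).sub
      (((hM.mul hM).mul hLK).const_mul ((2 * γ - 1) / 2)))).const_mul (Real.log 3 / (2 * γ))
  have hlim : c < Real.log 3 / (2 * γ) *
        ((r0 - 2 * 0) * (1 - 2 * (b * 0)) - 6 * ((r0 - 2 * 0) * (b * 0)) - 0 -
          (2 * γ - 1) / 2 * (b * b * 0)) := by
    have e : Real.log 3 / (2 * γ) *
        ((r0 - 2 * 0) * (1 - 2 * (b * 0)) - 6 * ((r0 - 2 * 0) * (b * 0)) - 0 -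
          (2 * γ - 1) / 2 * (b * b * 0)) = (1 - ε) / γ := by
      rw [hr0]; field_simp; ring
    rw [e]
    exact hεc
  have hev := hmain.eventually_const_lt hlim
  have hev2 : ∀ᶠ K : ℕ in Filter.atTop,
      ((⌈b * Real.log K⌉₊ : ℝ) / Real.log K) * (Real.log (K : ℝ) / K) < 1 := by
    have h := (hM.mul hLK).eventually_lt_const (show b * 0 < 1 by norm_num)
    exact h
  have hev3 := hL.eventually_gt_atTop 0
  have hev4 : ∀ᶠ K : ℕ in Filter.atTop, Real.log 3 / (1 - ε) ≤ Real.log (K : ℝ) :=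
    hL.eventually_ge_atTop _
  obtain ⟨K₀, hK₀⟩ := Filter.eventually_atTop.1 ((hev.and hev2).and
    ((hev3.and hev4).and (Filter.eventually_ge_atTop 1)))
  refine ⟨K₀, fun m hm K hK => ?_⟩
  obtain ⟨⟨h1, h2⟩, ⟨hC, h4⟩, hK1⟩ := hK₀ K hK
  by_cases hper : ∃ p, 1 ≤ p ∧ p < K ∧ t^[p] m = m
  · exact Or.inl hper
  right
  have hinj : ∀ i < K, ∀ j < K, t^[i] m = t^[j] m → i = j := by
    have key : ∀ i j, i < j → j < K → t^[i] m ≠ t^[j] m := by
      intro i j hij hj h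
      apply hper
      refine ⟨j - i, by omega, by omega, ?_⟩
      have h1 : t^[i] (t^[j - i] m) = t^[i] m := by
        rw [← Function.iterate_add_apply, h]
        congr 2
        omega
      exact t_inj.iterate i h1
    intro i hi j hj h
    rcases lt_trichotomy i j with hl | hl | hl
    · exact absurd h (key i j hl hj)
    · exact hl
    · exact absurd h.symm (key j i hl hi)
  have hK0 : (0 : ℝ) < K := by exact_mod_cast hK1
  set L : ℝ := Real.log (K : ℝ) with hLdef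
  set M : ℕ := ⌈b * L⌉₊ with hMdef
  have hMK : M ≤ K := by
    have e1 : (M : ℝ) / L * (L / K) = M / K := by field_simp
    rw [e1, div_lt_one hK0] at h2
    exact_mod_cast h2.le
  set A : ℝ := (K : ℝ) ^ (1 - ε) with hA
  have hlogA : Real.log A = (1 - ε) * L := by rw [hA, Real.log_rpow hK0]
  have hA3 : 3 ≤ A := by
    rw [← Real.log_le_log_iff (by norm_num) (by positivity), hlogA]
    rw [div_le_iff₀ (by linarith)] at h4
    linarith
  have hMA : 3 * (Real.log A / Real.log 3) ≤ M := by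
    refine le_trans ?_ (Nat.le_ceil (b * L))
    rw [hlogA, hb]
    have : (1 - ε) * L ≤ L := by nlinarith
    calc 3 * ((1 - ε) * L / Real.log 3) ≤ 3 * (L / Real.log 3) := by gcongr
      _ = 3 / Real.log 3 * L := by ring
  have hml := mean_lower hMK hA3 m hMA (fun i => t_iter_pos hm i) hinj
  have hAK : A = K / (K : ℝ) ^ ε := by rw [hA, Real.rpow_sub hK0, Real.rpow_one]
  have hRL : 2 * (Real.log A / Real.log 3) - 2 = (r0 - 2 * (1 / L)) * L := by
    rw [hlogA, hr0]; field_simp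
  rw [hRL] at hml
  set S : ℝ := ∑ i ∈ range K, Real.log ((t^[i] m : ℕ) : ℝ) with hS
  have hkey : (Real.log 3 / (2 * γ) *
        ((r0 - 2 * (1 / L)) * (1 - 2 * (((M : ℝ) / L) * (L / K))) -
          6 * ((r0 - 2 * (1 / L)) * (((M : ℝ) / L) * (L / (K : ℝ) ^ ε))) - 1 / L -
          (2 * γ - 1) / 2 * (((M : ℝ) / L) * ((M : ℝ) / L) * (L / K)))) * (K * L) ≤ S := by
    have hKε : (0 : ℝ) < (K : ℝ) ^ ε := by positivity
    have e1 : ((r0 - 2 * (1 / L)) * (1 - 2 * (((M : ℝ) / L) * (L / K))) -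
          6 * ((r0 - 2 * (1 / L)) * (((M : ℝ) / L) * (L / (K : ℝ) ^ ε))) - 1 / L -
          (2 * γ - 1) / 2 * (((M : ℝ) / L) * ((M : ℝ) / L) * (L / K))) * (K * L) =
        (r0 - 2 * (1 / L)) * L * ((K : ℝ) - 2 * M) -
          2 * ((r0 - 2 * (1 / L)) * L) * (M * (3 * A)) - K -
          (2 * γ - 1) * ((M : ℝ) ^ 2 / 2) := by
      rw [hAK]
      set u : ℝ := r0 - 2 * (1 / L) with hu
      field_simp
      ring
    have e2 : (r0 - 2 * (1 / L)) * L * ((K : ℝ) - 2 * M) -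
          2 * ((r0 - 2 * (1 / L)) * L) * (M * (3 * A)) - K -
          (2 * γ - 1) * ((M : ℝ) ^ 2 / 2) ≤ 2 * γ * (S / Real.log 3) := by linarith
    calc _ = Real.log 3 / (2 * γ) * (((r0 - 2 * (1 / L)) * (1 - 2 * (((M : ℝ) / L) * (L / K))) -
          6 * ((r0 - 2 * (1 / L)) * (((M : ℝ) / L) * (L / (K : ℝ) ^ ε))) - 1 / L -
          (2 * γ - 1) / 2 * (((M : ℝ) / L) * ((M : ℝ) / L) * (L / K))) * (K * L)) := by
          rw [mul_assoc]
      _ ≤ Real.log 3 / (2 * γ) * (2 * γ * (S / Real.log 3)) := by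
          rw [e1]
          gcongr
      _ = S := by field_simp
  refine le_trans ?_ hkey
  have hKL : 0 ≤ (K : ℝ) * L := by positivity
  exact mul_le_mul_of_nonneg_right h1.le hKL

theorem mean : ∀ c : ℝ, c < 1 / γ → ∃ K₀ : ℕ, ∀ n : ℤ, n ≠ 0 → ∀ K : ℕ, K₀ ≤ K →
    (∃ p : ℕ, 1 ≤ p ∧ p < K ∧ T^[p] n = n) ∨
      c * (K * Real.log K) ≤ ∑ i ∈ range K, Real.log |((T^[i] n : ℤ) : ℝ)| := by
  intro c hc
  obtain ⟨K₀, h⟩ := mean_nat hc
  refine ⟨K₀, fun n hn K hK => ?_⟩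
  obtain ⟨m, hnm⟩ := Int.eq_nat_or_neg n
  have hm : 1 ≤ m := by rcases hnm with h | h <;> omega
  rcases h m hm K hK with ⟨p, h1, h2, h3⟩ | h
  · left
    refine ⟨p, h1, h2, ?_⟩
    rcases hnm with rfl | rfl
    · rw [T_iter_cast, h3]
    · rw [T_iter_neg, T_iter_cast, h3]
  · right
    have habs : ∀ i, |((T^[i] n : ℤ) : ℝ)| = ((t^[i] m : ℕ) : ℝ) := by
      intro i
      rcases hnm with rfl | rfl
      · rw [T_iter_cast, Int.cast_natCast, abs_of_nonneg (Nat.cast_nonneg _)]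
      · rw [T_iter_neg, T_iter_cast, Int.cast_neg, Int.cast_natCast, abs_neg,
          abs_of_nonneg (Nat.cast_nonneg _)]
    simpa only [habs] using h

end Pool.Agent.H12.TG
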